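import Pool.Agent.Helper53.NW.CYN

/-!
# Packet CRX of the project NW: cycles of lines with crossings
-/

set_option autoImplicit false

namespace Pool.Agent.Helper94.NW

open Pool.Agent.Helper52.Wq2 Pool.Agent.Helper61.NW Pool.Agent.Helper53.NW

universe u

section

variable {Γ : Type u} [Group Γ] {S : Set Γ} {h : Γ → ℤ} {s : Γ} {H n m : ℕ}

/-- A crossing between the lines `i` and `j`. -/
def X (S : Set Γ) (h : Γ → ℤ) (s : Γ) (H : ℕ) (e : (Γ ⧸ Subgroup.zpowers s) ≃ ZMod n)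
    (i j : ZMod n) : Prop :=
  ∃ a b : Γ, e (a : Γ ⧸ Subgroup.zpowers s) = i ∧ e (b : Γ ⧸ Subgroup.zpowers s) = j ∧
    h b = h a + H ∧ a⁻¹ * b ∈ S ∧ (a * s)⁻¹ * (b * s⁻¹) ∈ S

theorem line_mul' (g : Γ) (i : ℤ) :
    ((g * s ^ i : Γ) : Γ ⧸ Subgroup.zpowers s) = (g : Γ ⧸ Subgroup.zpowers s) := line_mul g i

theorem line_s (g : Γ) : ((g * s : Γ) : Γ ⧸ Subgroup.zpowers s) = (g : Γ ⧸ Subgroup.zpowers s) := by
  have := line_mul' (s := s) g 1
  rwa [zpow_one] at this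

theorem line_s' (g : Γ) :
    ((g * s⁻¹ : Γ) : Γ ⧸ Subgroup.zpowers s) = (g : Γ ⧸ Subgroup.zpowers s) := by
  have := line_mul' (s := s) g (-1)
  rwa [zpow_neg_one] at this

theorem X_symm (T : Two S h s H n m) (e : (Γ ⧸ Subgroup.zpowers s) ≃ ZMod n) {i j : ZMod n}
    (hX : X S h s H e i j) : X S h s H e j i := by
  obtain ⟨a, b, ha, hb, hh, h1, h2⟩ := hX
  refine ⟨b * s⁻¹, a * s, ?_, ?_, ?_, ?_, ?_⟩
  · rw [line_s']; exact hb
  · rw [line_s]; exact ha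
  · rw [T.hom, T.hom, h_inv T, T.Hs, hh]; ring
  · have := T.gen.2.1 _ h2
    rwa [mul_inv_rev, inv_inv] at this
  · have := T.gen.2.1 _ h1
    have e1 : (b * s⁻¹ * s)⁻¹ * (a * s * s⁻¹) = (a⁻¹ * b)⁻¹ := by group
    rw [e1]
    exact this

/-- Transport of crossings. -/
theorem X_move (T : Two S h s H n m) (e : (Γ ⧸ Subgroup.zpowers s) ≃ ZMod n)
    (he : IsCyc S s n e) (i i' : ZMod n) :
    ∃ g : Γ, (∀ a : Γ, e (a : Γ ⧸ Subgroup.zpowers s) = i →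
      e ((g * a : Γ) : Γ ⧸ Subgroup.zpowers s) = i') ∧
      ∀ a b : Γ, e (a : Γ ⧸ Subgroup.zpowers s) = i → e (b : Γ ⧸ Subgroup.zpowers s) ≠ i →
        h b = h a + H → a⁻¹ * b ∈ S → (a * s)⁻¹ * (b * s⁻¹) ∈ S →
        X S h s H e i' (e ((g * b : Γ) : Γ ⧸ Subgroup.zpowers s)) ∧
          (e ((g * b : Γ) : Γ ⧸ Subgroup.zpowers s) = i' + 1 ∨
            i' = e ((g * b : Γ) : Γ ⧸ Subgroup.zpowers s) + 1) := by
  obtain ⟨p, hp⟩ := QuotientGroup.mk_surjective (e.symm i)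
  obtain ⟨p', hp'⟩ := QuotientGroup.mk_surjective (e.symm i')
  have m1 : ∀ a : Γ, e (a : Γ ⧸ Subgroup.zpowers s) = i →
      e ((p' * p⁻¹ * a : Γ) : Γ ⧸ Subgroup.zpowers s) = i' := by
    intro a ha
    have h1 : (p : Γ ⧸ Subgroup.zpowers s) = (a : Γ ⧸ Subgroup.zpowers s) := by
      rw [hp, ← ha, e.symm_apply_apply]
    obtain ⟨k, rfl⟩ := line_eq h1
    have h2 : p' * p⁻¹ * (p * s ^ k) = p' * s ^ k := by group
    rw [h2, line_mul', hp', e.apply_symm_apply]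
  refine ⟨p' * p⁻¹, m1, ?_⟩
  intro a b ha hb hh h1 h2
  have q1 := m1 a ha
  have c1 : (p' * p⁻¹ * a)⁻¹ * (p' * p⁻¹ * b) = a⁻¹ * b := by group
  have c2 : (p' * p⁻¹ * a * s)⁻¹ * (p' * p⁻¹ * b * s⁻¹) = (a * s)⁻¹ * (b * s⁻¹) := by group
  refine ⟨⟨p' * p⁻¹ * a, p' * p⁻¹ * b, q1, rfl, ?_, by rw [c1]; exact h1,
    by rw [c2]; exact h2⟩, ?_⟩
  · rw [T.hom _ a, T.hom _ b, hh]; ring
  · have hne : ((p' * p⁻¹ * a : Γ) : Γ ⧸ Subgroup.zpowers s) ≠
        ((p' * p⁻¹ * b : Γ) : Γ ⧸ Subgroup.zpowers s) := by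
      intro h3
      rw [QuotientGroup.eq, c1] at h3
      apply hb
      have h4 : (a : Γ ⧸ Subgroup.zpowers s) = (b : Γ ⧸ Subgroup.zpowers s) :=
        QuotientGroup.eq.2 h3
      rw [← h4]
      exact ha
    have hadj : (Ln S s).Adj ((p' * p⁻¹ * a : Γ) : Γ ⧸ Subgroup.zpowers s)
        ((p' * p⁻¹ * b : Γ) : Γ ⧸ Subgroup.zpowers s) := by
      unfold Ln
      rw [SimpleGraph.fromRel_adj]
      refine ⟨hne, Or.inl ⟨p' * p⁻¹ * a, a⁻¹ * b, h1, rfl, ?_⟩⟩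
      congr 1
      group
    have := (he _ _).1 hadj
    rw [q1] at this
    exact this

theorem two_ne (hn : 3 ≤ n) : (2 : ZMod n) ≠ 0 := by
  intro h2
  have h3 : ((2 : ℕ) : ZMod n) = 0 := by exact_mod_cast h2
  rw [ZMod.natCast_eq_zero_iff] at h3
  have := Nat.le_of_dvd (by norm_num) h3
  omega

theorem one_ne (hn : 3 ≤ n) : (1 : ZMod n) ≠ 0 := by
  intro h2
  have h3 : ((1 : ℕ) : ZMod n) = 0 := by exact_mod_cast h2
  rw [ZMod.natCast_eq_zero_iff] at h3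
  have := Nat.le_of_dvd (by norm_num) h3
  omega

theorem step_two (T : Two S h s H n m) (hn : 3 ≤ n) (e : (Γ ⧸ Subgroup.zpowers s) ≃ ZMod n)
    (he : IsCyc S s n e) (j : ZMod n) (hj : X S h s H e j (j + 1)) :
    X S h s H e (j + 2) (j + 2 + 1) := by
  obtain ⟨a, b, ha, hb, hh, h1, h2⟩ := hj
  obtain ⟨g, g1, g2⟩ := X_move T e he j (j + 2)
  have hbne : e (b : Γ ⧸ Subgroup.zpowers s) ≠ j := by
    rw [hb]
    intro h3
    exact one_ne hn (by simpa using h3)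
  obtain ⟨hX, h3 | h3⟩ := g2 a b ha hbne hh h1 h2
  · rw [h3] at hX; exact hX
  · -- the line `j + 1` has crossings on both sides
    have h4 : e ((g * b : Γ) : Γ ⧸ Subgroup.zpowers s) = j + 1 := by
      have h5 : j + 1 + 1 = e ((g * b : Γ) : Γ ⧸ Subgroup.zpowers s) + 1 := by
        rw [← h3]; ring
      exact (add_right_cancel h5).symm
    rw [h4] at hX
    obtain ⟨a1, b1, ha1, hb1, hh1, h11, h12⟩ := X_symm T e hX
    obtain ⟨a2, b2, ha2, hb2, hh2, h21, h22⟩ :=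
      X_symm T e (⟨a, b, ha, hb, hh, h1, h2⟩ : X S h s H e j (j + 1))
    obtain ⟨g', g1', g2'⟩ := X_move T e he (j + 1) (j + 2)
    have n1 : e (b1 : Γ ⧸ Subgroup.zpowers s) ≠ j + 1 := by
      rw [hb1]
      intro h3
      apply one_ne hn
      have : j + 1 + 1 = j + 1 + 0 := by rw [add_zero, add_assoc, one_add_one_eq_two]; exact h3
      exact add_left_cancel this
    have n2 : e (b2 : Γ ⧸ Subgroup.zpowers s) ≠ j + 1 := by
      rw [hb2]
      intro h3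
      apply one_ne hn
      have : j + 0 = j + 1 := by rw [add_zero]; exact h3
      exact (add_left_cancel this).symm
    obtain ⟨X1, d1⟩ := g2' a1 b1 ha1 n1 hh1 h11 h12
    obtain ⟨X2, d2⟩ := g2' a2 b2 ha2 n2 hh2 h21 h22
    have hne : e ((g' * b1 : Γ) : Γ ⧸ Subgroup.zpowers s) ≠
        e ((g' * b2 : Γ) : Γ ⧸ Subgroup.zpowers s) := by
      intro h5
      have h6 := e.injective h5
      rw [QuotientGroup.eq] at h6
      have h7 : (g' * b1)⁻¹ * (g' * b2) = b1⁻¹ * b2 := by group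
      rw [h7] at h6
      have h8 : (b1 : Γ ⧸ Subgroup.zpowers s) = (b2 : Γ ⧸ Subgroup.zpowers s) :=
        QuotientGroup.eq.2 h6
      rw [h8, hb2] at hb1
      apply two_ne hn
      have : j + 0 = j + 2 := by rw [add_zero]; exact hb1
      exact (add_left_cancel this).symm
    rcases d1 with d1 | d1
    · rw [d1] at X1; exact X1
    · rcases d2 with d2 | d2
      · rw [d2] at X2; exact X2
      · exact absurd (add_right_cancel (d1.symm.trans d2)) hne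

theorem all_two (T : Two S h s H n m) (hn : 3 ≤ n) (e : (Γ ⧸ Subgroup.zpowers s) ≃ ZMod n)
    (he : IsCyc S s n e) (j : ZMod n) (hj : X S h s H e j (j + 1)) (i : ℕ) :
    X S h s H e (j + ((2 * i : ℕ) : ZMod n)) (j + ((2 * i : ℕ) : ZMod n) + 1) := by
  induction i with
  | zero => simpa using hj
  | succ i ih =>
    have := step_two T hn e he _ ih
    have e1 : j + ((2 * (i + 1) : ℕ) : ZMod n) = j + ((2 * i : ℕ) : ZMod n) + 2 := by
      push_cast; ring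
    rw [e1]
    exact this

/-- Points of a line in a window. -/
theorem pt (T : Two S h s H n m) (e : (Γ ⧸ Subgroup.zpowers s) ≃ ZMod n) (j : ZMod n) (t : ℤ) :
    ∃ g : Γ, e (g : Γ ⧸ Subgroup.zpowers s) = j ∧ t ≤ h g ∧ h g < t + H := by
  obtain ⟨p, hp⟩ := QuotientGroup.mk_surjective (e.symm j)
  have hH : (0 : ℤ) < H := by exact_mod_cast T.Hpos
  have h1 := Int.emod_nonneg (h p - t) hH.ne'
  have h2 := Int.emod_lt_of_pos (h p - t) hH
  have h3 := Int.emod_add_mul_ediv (h p - t) H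
  refine ⟨p * s ^ (-((h p - t) / H)), ?_, ?_⟩
  · rw [line_mul', hp, e.apply_symm_apply]
  · have e1 : h (p * s ^ (-((h p - t) / (H : ℤ)))) = h p - H * ((h p - t) / H) := by
      rw [T.hom, h_zpow T]; ring
    rw [e1]
    constructor <;> omega

/-- Edges between neighbouring lines in a window. -/
theorem edge (T : Two S h s H n m) (hn : 3 ≤ n) (e : (Γ ⧸ Subgroup.zpowers s) ≃ ZMod n)
    (he : IsCyc S s n e) (j : ZMod n) (t : ℤ) :
    ∃ u v : Γ, e (u : Γ ⧸ Subgroup.zpowers s) = j ∧ e (v : Γ ⧸ Subgroup.zpowers s) = j + 1 ∧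
      u⁻¹ * v ∈ S ∧ t ≤ h v ∧ h v < t + m * H ∧ h v - H ≤ h u ∧ h u ≤ h v + H := by
  have hadj : (Ln S s).Adj (e.symm j) (e.symm (j + 1)) := by
    rw [he, e.apply_symm_apply, e.apply_symm_apply]
    exact Or.inl rfl
  obtain ⟨u, v, hu, hv, huv⟩ : ∃ u v : Γ, (u : Γ ⧸ Subgroup.zpowers s) = e.symm j ∧
      (v : Γ ⧸ Subgroup.zpowers s) = e.symm (j + 1) ∧ u⁻¹ * v ∈ S := by
    unfold Ln at hadj
    rw [SimpleGraph.fromRel_adj] at hadj
    obtain ⟨_, ⟨g, t, ht, h1, h2⟩ | ⟨g, t, ht, h1, h2⟩⟩ := hadj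
    · exact ⟨g, g * t, h1, h2, by rw [inv_mul_cancel_left]; exact ht⟩
    · refine ⟨g * t, g, h2, h1, ?_⟩
      have e1 : (g * t)⁻¹ * g = t⁻¹ := by group
      rw [e1]
      exact T.gen.2.1 t ht
  have hH : (0 : ℤ) < H := by exact_mod_cast T.Hpos
  have hm : (0 : ℤ) < m := by exact_mod_cast T.mpos
  have hmH : (0 : ℤ) < m * H := mul_pos hm hH
  obtain ⟨c, hc⟩ : ∃ c : ℤ, c = -((h v - t) / (m * H)) := ⟨_, rfl⟩
  have h1 := Int.emod_nonneg (h v - t) hmH.ne'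
  have h2 := Int.emod_lt_of_pos (h v - t) hmH
  have h3 := Int.emod_add_mul_ediv (h v - t) (m * H)
  have hz : h (s ^ ((m : ℤ) * c)) = -((m * H : ℤ) * ((h v - t) / (m * H))) := by
    rw [h_zpow T, hc]; ring
  have hmax := abs_le.1 (T.max _ huv)
  have hvu : h v = h u + h (u⁻¹ * v) := by
    rw [← T.hom, mul_inv_cancel_left]
  refine ⟨u * s ^ ((m : ℤ) * c), v * s ^ ((m : ℤ) * c), ?_, ?_, ?_, ?_, ?_, ?_, ?_⟩
  · rw [line_mul', hu, e.apply_symm_apply]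
  · rw [line_mul', hv, e.apply_symm_apply]
  · have e1 : (u * s ^ ((m : ℤ) * c))⁻¹ * (v * s ^ ((m : ℤ) * c)) = u⁻¹ * v := by
      rw [mul_inv_rev, mul_assoc, central T v c, ← mul_assoc u⁻¹, central T u⁻¹ c]
      group
    rw [e1]
    exact huv
  · rw [T.hom, hz]; omega
  · rw [T.hom, hz]; omega
  · rw [T.hom, T.hom, hz]; omega
  · rw [T.hom, T.hom, hz]; omega

/-- Crossings in a window. -/
theorem crossing (T : Two S h s H n m) (e : (Γ ⧸ Subgroup.zpowers s) ≃ ZMod n)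
    (i j : ZMod n) (hX : X S h s H e i j) (t : ℤ) :
    ∃ a b : Γ, e (a : Γ ⧸ Subgroup.zpowers s) = i ∧ e (b : Γ ⧸ Subgroup.zpowers s) = j ∧
      h b = h a + H ∧ a⁻¹ * b ∈ S ∧ (a * s)⁻¹ * (b * s⁻¹) ∈ S ∧ t ≤ h a ∧ h a < t + m * H := by
  obtain ⟨a, b, ha, hb, hh, h1, h2⟩ := hX
  have hH : (0 : ℤ) < H := by exact_mod_cast T.Hpos
  have hm : (0 : ℤ) < m := by exact_mod_cast T.mpos
  have hmH : (0 : ℤ) < m * H := mul_pos hm hH
  obtain ⟨c, hc⟩ : ∃ c : ℤ, c = -((h a - t) / (m * H)) := ⟨_, rfl⟩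
  have h3 := Int.emod_nonneg (h a - t) hmH.ne'
  have h4 := Int.emod_lt_of_pos (h a - t) hmH
  have h5 := Int.emod_add_mul_ediv (h a - t) (m * H)
  have hz : h (s ^ ((m : ℤ) * c)) = -((m * H : ℤ) * ((h a - t) / (m * H))) := by
    rw [h_zpow T, hc]; ring
  refine ⟨a * s ^ ((m : ℤ) * c), b * s ^ ((m : ℤ) * c), ?_, ?_, ?_, ?_, ?_, ?_, ?_⟩
  · rw [line_mul']; exact ha
  · rw [line_mul']; exact hb
  · rw [T.hom, T.hom, hh]; ring
  · have e1 : (a * s ^ ((m : ℤ) * c))⁻¹ * (b * s ^ ((m : ℤ) * c)) = a⁻¹ * b := by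
      rw [mul_inv_rev, mul_assoc, central T b c, ← mul_assoc a⁻¹, central T a⁻¹ c]
      group
    rw [e1]
    exact h1
  · have e1 : (a * s ^ ((m : ℤ) * c) * s)⁻¹ * (b * s ^ ((m : ℤ) * c) * s⁻¹) =
        (a * s)⁻¹ * (b * s⁻¹) := by
      rw [central T a c, central T b c]
      group
    rw [e1]
    exact h2
  · rw [T.hom, hz]; omega
  · rw [T.hom, hz]; omega

/-- A piece of a line. -/
def seg (h : Γ → ℤ) (s : Γ) (e : (Γ ⧸ Subgroup.zpowers s) ≃ ZMod n) (j : ZMod n) (u v : ℤ) :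
    Set Γ :=
  {g | e (g : Γ ⧸ Subgroup.zpowers s) = j ∧ u ≤ h g ∧ h g ≤ v}

theorem conn_seg (T : Two S h s H n m) (e : (Γ ⧸ Subgroup.zpowers s) ≃ ZMod n) (j : ZMod n)
    (u v : ℤ) (g : Γ) (hg : g ∈ seg h s e j u v) : Conn (cay S) (seg h s e j u v) := by
  obtain ⟨h1, h2, h3⟩ := hg
  have hH : (0 : ℤ) < H := by exact_mod_cast T.Hpos
  have hset : seg h s e j u v = {x | ∃ k : ℤ, (u ≤ h g + k * H ∧ h g + k * H ≤ v) ∧
      g * s ^ k = x} := by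
    ext x
    constructor
    · rintro ⟨a1, a2, a3⟩
      have h4 : (g : Γ ⧸ Subgroup.zpowers s) = (x : Γ ⧸ Subgroup.zpowers s) :=
        e.injective (h1.trans a1.symm)
      obtain ⟨k, rfl⟩ := line_eq h4
      rw [T.hom, h_zpow T] at a2 a3
      exact ⟨k, ⟨a2, a3⟩, rfl⟩
    · rintro ⟨k, ⟨a2, a3⟩, rfl⟩
      refine ⟨by rw [line_mul']; exact h1, ?_, ?_⟩
      · rw [T.hom, h_zpow T]; exact a2
      · rw [T.hom, h_zpow T]; exact a3
  rw [hset]
  refine conn_line (fun k : ℤ => g * s ^ k) _ 0 ⟨by omega, by omega⟩ ?_ ?_ ?_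
  · rintro k hk ⟨a1, a2⟩
    rw [add_mul, one_mul] at a2
    have : 0 ≤ k * (H : ℤ) := mul_nonneg hk hH.le
    exact ⟨by omega, by omega⟩
  · rintro k hk ⟨a1, a2⟩
    rw [sub_mul, one_mul] at a1
    have : k * (H : ℤ) ≤ 0 := mul_nonpos_of_nonpos_of_nonneg hk hH.le
    exact ⟨by omega, by omega⟩
  · intro k _ _
    show (cay S).Adj (g * s ^ k) (g * s ^ (k + 1))
    rw [zpow_add_one, ← mul_assoc]
    exact cay_adj_mul T.gen _ T.hs

end

end Pool.Agent.Helper94.NW
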