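import Pool.Agent.Helper94.NW.CRX

/-!
# Packet CRX of the project NW: the model
-/

set_option autoImplicit false

namespace Pool.Agent.Helper94.NW

open Pool.Agent.Helper52.Wq2 Pool.Agent.Helper61.NW Pool.Agent.Helper53.NW

universe u

theorem ell_inj (n : ℕ) (j : ZMod n) (k k' : ℕ) (hk : k < n) (hk' : k' < n)
    (h : j - 1 + (k : ZMod n) = j - 1 + (k' : ZMod n)) : k = k' := by
  have h1 : (k : ZMod n) = (k' : ZMod n) := add_left_cancel h
  rw [ZMod.natCast_eq_natCast_iff'] at h1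
  rwa [Nat.mod_eq_of_lt hk, Nat.mod_eq_of_lt hk'] at h1

theorem uniq (P c t x x' : ℤ) (hP : 0 < P) (h1 : c + P * x ≤ t) (h2 : t ≤ c + P * x + P - 1)
    (h3 : c + P * x' ≤ t) (h4 : t ≤ c + P * x' + P - 1) : x = x' := by
  have a1 : P * x < P * (x' + 1) := by rw [mul_add, mul_one]; omega
  have a2 : P * x' < P * (x + 1) := by rw [mul_add, mul_one]; omega
  have b1 := lt_of_mul_lt_mul_left a1 hP.le
  have b2 := lt_of_mul_lt_mul_left a2 hP.le
  omega

theorem crx : CrxStmt.{u} := by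
  intro Γ _ S h s H n m T hn e he hj q hq
  obtain ⟨j, hj⟩ := hj
  have hj' : X S h s H e j (j + 1) := hj
  have hH : (0 : ℤ) < H := by exact_mod_cast T.Hpos
  have hm : (1 : ℤ) ≤ m := by exact_mod_cast T.mpos
  obtain ⟨W, hW⟩ : ∃ W : ℤ, W = m * H := ⟨_, rfl⟩
  have hHW : (H : ℤ) ≤ W := by
    rw [hW]; nlinarith
  obtain ⟨P, hP⟩ : ∃ P : ℤ, P = 16 * W := ⟨_, rfl⟩
  obtain ⟨l, hl⟩ : ∃ l : ℕ → ZMod n, l = fun k : ℕ => j - 1 + (k : ZMod n) := ⟨_, rfl⟩
  have l1 : ∀ i : ℕ, l (2 * i + 1) = j + ((2 * i : ℕ) : ZMod n) := by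
    intro i; rw [hl]; push_cast; ring
  have l2 : ∀ i : ℕ, l (2 * i + 2) = j + ((2 * i : ℕ) : ZMod n) + 1 := by
    intro i; rw [hl]; push_cast; ring
  have l3 : ∀ k : ℕ, l k + 1 = l (k + 1) := by
    intro k; rw [hl]; push_cast; ring
  have linj : ∀ k k' : ℕ, k < n → k' < n → l k = l k' → k = k' := by
    intro k k' h1 h2 h3
    rw [hl] at h3
    exact ell_inj n j k k' h1 h2 h3
  obtain ⟨τ, hτ⟩ : ∃ τ : ℕ → ℤ, τ = fun i : ℕ => 8 * W * ((i : ℤ) + 1) := ⟨_, rfl⟩
  have τ0 : τ 0 = 8 * W := by rw [hτ]; simp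
  have τs : ∀ i, τ (i + 1) = τ i + 8 * W := by
    intro i; rw [hτ]; push_cast; ring
  have hE : ∀ i : ℕ, ∃ u v : Γ, e (u : Γ ⧸ Subgroup.zpowers s) = l (2 * i) ∧
      e (v : Γ ⧸ Subgroup.zpowers s) = l (2 * i + 1) ∧ u⁻¹ * v ∈ S ∧ τ i ≤ h v ∧
      h v < τ i + W ∧ h v - H ≤ h u ∧ h u ≤ h v + H := by
    intro i
    have := edge T hn e he (l (2 * i)) (τ i)
    rw [l3, ← hW] at this
    exact this
  choose u v hu hv huv v1 v2 u1 u2 using hE
  have hC : ∀ i : ℕ, ∃ a b : Γ, e (a : Γ ⧸ Subgroup.zpowers s) = l (2 * i + 1) ∧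
      e (b : Γ ⧸ Subgroup.zpowers s) = l (2 * i + 2) ∧ h b = h a + H ∧ a⁻¹ * b ∈ S ∧
      (a * s)⁻¹ * (b * s⁻¹) ∈ S ∧ τ i + 3 * W ≤ h a ∧ h a < τ i + 3 * W + W := by
    intro i
    have := crossing T e _ _ (all_two T hn e he j hj' i) (τ i + 3 * W)
    rw [← l1, l3, ← hW] at this
    exact this
  choose a b ha hb hab c1 c2 a1 a2 using hC
  -- translation
  obtain ⟨z, hz⟩ : ∃ z : ℤ → Γ, z = fun x => s ^ ((m : ℤ) * (16 * x)) := ⟨_, rfl⟩
  have zh : ∀ (g : Γ) (x : ℤ), h (g * z x) = h g + P * x := by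
    intro g x
    rw [T.hom, hz]
    simp only
    rw [h_zpow T, hP, hW]; ring
  have zl : ∀ (g : Γ) (x : ℤ), e ((g * z x : Γ) : Γ ⧸ Subgroup.zpowers s) =
      e (g : Γ ⧸ Subgroup.zpowers s) := by
    intro g x
    rw [hz]
    simp only
    rw [line_mul']
  have zc : ∀ (g : Γ) (x : ℤ), g * z x = z x * g := by
    intro g x
    rw [hz]
    exact central T g (16 * x)
  have zadj : ∀ (g g' : Γ) (x : ℤ), g⁻¹ * g' ∈ S → (cay S).Adj (g * z x) (g' * z x) := by
    intro g g' x hg
    rw [cay_adj T.gen]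
    have e1 : (g * z x)⁻¹ * (g' * z x) = g⁻¹ * g' := by
      rw [zc g x, zc g' x]; group
    rw [e1]
    exact hg
  have zs : ∀ (g : Γ), e ((g * s : Γ) : Γ ⧸ Subgroup.zpowers s) =
      e (g : Γ ⧸ Subgroup.zpowers s) := fun g => by rw [line_s]
  have zs' : ∀ (g : Γ), e ((g * s⁻¹ : Γ) : Γ ⧸ Subgroup.zpowers s) =
      e (g : Γ ⧸ Subgroup.zpowers s) := fun g => by rw [line_s']
  have hs : ∀ g : Γ, h (g * s) = h g + H := fun g => by rw [T.hom, T.Hs]
  have hs' : ∀ g : Γ, h (g * s⁻¹) = h g - H := fun g => by rw [T.hom, h_inv T, T.Hs]; ring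
  -- the branch sets
  let cen : ℕ → ℤ → Set Γ := fun r x => {g | g ∈ seg h s e (l 0) (P * x) (P * x + P - 1) ∨
    ∃ i, i < r ∧ (g ∈ seg h s e (l (2 * i + 1)) (h (v i) + P * x) (h (a i) + P * x) ∨
      g ∈ seg h s e (l (2 * i + 2)) (h (b i) + P * x) (h (u (i + 1)) + P * x))}
  let leaf : ℤ → ℕ → Set Γ := fun x i =>
    seg h s e (l (2 * i + 2)) (h (u (i + 1)) + P * x - P + 1) (h (b i) + P * x - 1) ∪
    seg h s e (l (2 * i + 1)) (h (a i) + P * x + 1) (h (v i) + P * x + P - 1)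
  have leaf_conn : ∀ x i, Conn (cay S) (leaf x i) := by
    intro x i
    have t1 := v1 i; have t2 := v2 i; have t3 := a1 i; have t4 := a2 i; have t5 := hab i
    have t6 := v1 (i + 1); have t7 := v2 (i + 1); have t8 := u1 (i + 1); have t9 := u2 (i + 1)
    have t0 := τs i
    have m1 : b i * s⁻¹ * z x ∈ seg h s e (l (2 * i + 2)) (h (u (i + 1)) + P * x - P + 1)
        (h (b i) + P * x - 1) := by
      refine ⟨by rw [zl, zs', hb], ?_, ?_⟩
      · rw [zh, hs']; omega
      · rw [zh, hs']; omega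
    have m2 : a i * s * z x ∈ seg h s e (l (2 * i + 1)) (h (a i) + P * x + 1)
        (h (v i) + P * x + P - 1) := by
      refine ⟨by rw [zl, zs, ha], ?_, ?_⟩
      · rw [zh, hs]; omega
      · rw [zh, hs]; omega
    exact (conn_seg T e _ _ _ _ m1).union (conn_seg T e _ _ _ _ m2) m1 m2
      ((zadj _ _ x (c2 i)).symm)
  have cen_conn : ∀ (x : ℤ) (r : ℕ), Conn (cay S) (cen r x) ∧ u r * z x ∈ cen r x := by
    intro x r
    induction r with
    | zero =>
      have t1 := v1 0; have t2 := v2 0; have t8 := u1 0; have t9 := u2 0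
      have m0 : u 0 * z x ∈ seg h s e (l 0) (P * x) (P * x + P - 1) := by
        refine ⟨by rw [zl, hu], ?_, ?_⟩
        · rw [zh]; omega
        · rw [zh]; omega
      have hset : cen 0 x = seg h s e (l 0) (P * x) (P * x + P - 1) := by
        ext g
        constructor
        · rintro (h1 | ⟨i, hi, _⟩)
          · exact h1
          · omega
        · exact fun h1 => Or.inl h1
      rw [hset]
      exact ⟨conn_seg T e _ _ _ _ m0, m0⟩
    | succ r ih =>
      obtain ⟨ih1, ih2⟩ := ih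
      have t1 := v1 r; have t2 := v2 r; have t3 := a1 r; have t4 := a2 r; have t5 := hab r
      have t6 := v1 (r + 1); have t7 := v2 (r + 1); have t8 := u1 (r + 1)
      have t9 := u2 (r + 1)
      have t0 := τs r
      have m1 : v r * z x ∈ seg h s e (l (2 * r + 1)) (h (v r) + P * x) (h (a r) + P * x) := by
        refine ⟨by rw [zl, hv], ?_, ?_⟩
        · rw [zh]
        · rw [zh]; omega
      have m2 : a r * z x ∈ seg h s e (l (2 * r + 1)) (h (v r) + P * x) (h (a r) + P * x) := by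
        refine ⟨by rw [zl, ha], ?_, ?_⟩
        · rw [zh]; omega
        · rw [zh]
      have m3 : b r * z x ∈ seg h s e (l (2 * r + 2)) (h (b r) + P * x)
          (h (u (r + 1)) + P * x) := by
        refine ⟨by rw [zl, hb], ?_, ?_⟩
        · rw [zh]
        · rw [zh]; omega
      have m4 : u (r + 1) * z x ∈ seg h s e (l (2 * r + 2)) (h (b r) + P * x)
          (h (u (r + 1)) + P * x) := by
        refine ⟨by rw [zl, hu]; rfl, ?_, ?_⟩
        · rw [zh]; omega
        · rw [zh]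
      have hset : cen (r + 1) x = (cen r x ∪
          seg h s e (l (2 * r + 1)) (h (v r) + P * x) (h (a r) + P * x)) ∪
          seg h s e (l (2 * r + 2)) (h (b r) + P * x) (h (u (r + 1)) + P * x) := by
        ext g
        constructor
        · rintro (h1 | ⟨i, hi, h1⟩)
          · exact Or.inl (Or.inl (Or.inl h1))
          · rcases Nat.lt_succ_iff_lt_or_eq.1 hi with hi' | hi'
            · exact Or.inl (Or.inl (Or.inr ⟨i, hi', h1⟩))
            · subst hi'
              rcases h1 with h1 | h1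
              · exact Or.inl (Or.inr h1)
              · exact Or.inr h1
        · rintro ((h1 | h1) | h1)
          · rcases h1 with h1 | ⟨i, hi, h1⟩
            · exact Or.inl h1
            · exact Or.inr ⟨i, by omega, h1⟩
          · exact Or.inr ⟨r, by omega, Or.inl h1⟩
          · exact Or.inr ⟨r, by omega, Or.inr h1⟩
      rw [hset]
      have k1 := ih1.union (conn_seg T e _ _ _ _ m1) ih2 m1 (zadj _ _ x (huv r))
      have k2 := k1.union (conn_seg T e _ _ _ _ m3) (Or.inr m2) m3 (zadj _ _ x (c1 r))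
      exact ⟨k2, Or.inr m4⟩
  -- the position of an element
  let φ : ℤ × Option (Fin q) → Set Γ := fun p => match p.2 with
    | none => cen q p.1
    | some i => leaf p.1 i
  have hfloor : ∀ (x : ℤ) (o : Option (Fin q)) (g : Γ), g ∈ φ (x, o) →
      (e (g : Γ ⧸ Subgroup.zpowers s) = l 0 ∧ 0 + P * x ≤ h g ∧ h g ≤ 0 + P * x + P - 1) ∨
      (∃ i, i < q ∧ e (g : Γ ⧸ Subgroup.zpowers s) = l (2 * i + 1) ∧ h (v i) + P * x ≤ h g ∧
        h g ≤ h (v i) + P * x + P - 1) ∨
      (∃ i, i < q ∧ e (g : Γ ⧸ Subgroup.zpowers s) = l (2 * i + 2) ∧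
        (h (u (i + 1)) - P + 1) + P * x ≤ h g ∧
        h g ≤ (h (u (i + 1)) - P + 1) + P * x + P - 1) := by
    intro x o g hg
    rcases o with _ | i
    · have hg : g ∈ cen q x := hg
      rcases hg with ⟨g1, g2, g3⟩ | ⟨i, hi, ⟨g1, g2, g3⟩ | ⟨g1, g2, g3⟩⟩
      · exact Or.inl ⟨g1, by omega, by omega⟩
      · have t1 := v1 i; have t2 := v2 i; have t3 := a1 i; have t4 := a2 i
        exact Or.inr (Or.inl ⟨i, hi, g1, by omega, by omega⟩)
      · have t3 := a1 i; have t4 := a2 i; have t5 := hab i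
        have t6 := v1 (i + 1); have t7 := v2 (i + 1); have t8 := u1 (i + 1)
        have t9 := u2 (i + 1); have t0 := τs i
        exact Or.inr (Or.inr ⟨i, hi, g1, by omega, by omega⟩)
    · have hi := i.2
      have hg : g ∈ leaf x i := hg
      rcases hg with ⟨g1, g2, g3⟩ | ⟨g1, g2, g3⟩
      · have t3 := a1 i; have t4 := a2 i; have t5 := hab i
        have t6 := v1 (i + 1); have t7 := v2 (i + 1); have t8 := u1 (i + 1)
        have t9 := u2 (i + 1); have t0 := τs i
        exact Or.inr (Or.inr ⟨i, hi, g1, by omega, by omega⟩)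
      · have t1 := v1 i; have t2 := v2 i; have t3 := a1 i; have t4 := a2 i
        exact Or.inr (Or.inl ⟨i, hi, g1, by omega, by omega⟩)
  have hPpos : 0 < P := by omega
  have hxx : ∀ (x x' : ℤ) (o o' : Option (Fin q)) (g : Γ), g ∈ φ (x, o) → g ∈ φ (x', o') →
      x = x' := by
    intro x x' o o' g hg hg'
    rcases hfloor x o g hg with ⟨g1, g2, g3⟩ | ⟨i, hi, g1, g2, g3⟩ | ⟨i, hi, g1, g2, g3⟩
    · rcases hfloor x' o' g hg' with ⟨k1, k2, k3⟩ | ⟨i', hi', k1, k2, k3⟩ | ⟨i', hi', k1, k2, k3⟩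
      · exact uniq P _ _ _ _ hPpos g2 g3 k2 k3
      · have := linj _ _ (by omega) (by omega) (g1.symm.trans k1); omega
      · have := linj _ _ (by omega) (by omega) (g1.symm.trans k1); omega
    · rcases hfloor x' o' g hg' with ⟨k1, k2, k3⟩ | ⟨i', hi', k1, k2, k3⟩ | ⟨i', hi', k1, k2, k3⟩
      · have := linj _ _ (by omega) (by omega) (g1.symm.trans k1); omega
      · have h7 := linj _ _ (by omega) (by omega) (g1.symm.trans k1)
        have h8 : i = i' := by omega
        subst h8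
        exact uniq P _ _ _ _ hPpos g2 g3 k2 k3
      · have := linj _ _ (by omega) (by omega) (g1.symm.trans k1); omega
    · rcases hfloor x' o' g hg' with ⟨k1, k2, k3⟩ | ⟨i', hi', k1, k2, k3⟩ | ⟨i', hi', k1, k2, k3⟩
      · have := linj _ _ (by omega) (by omega) (g1.symm.trans k1); omega
      · have := linj _ _ (by omega) (by omega) (g1.symm.trans k1); omega
      · have h7 := linj _ _ (by omega) (by omega) (g1.symm.trans k1)
        have h8 : i = i' := by omega
        subst h8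
        exact uniq P _ _ _ _ hPpos g2 g3 k2 k3
  have hcl : ∀ (x : ℤ) (i : Fin q) (g : Γ), g ∈ cen q x → g ∉ leaf x i := by
    intro x i g hg hg'
    have hi := i.2
    rcases hg with ⟨g1, g2, g3⟩ | ⟨i', hi', ⟨g1, g2, g3⟩ | ⟨g1, g2, g3⟩⟩
    · rcases hg' with ⟨k1, k2, k3⟩ | ⟨k1, k2, k3⟩
      · have := linj _ _ (by omega) (by omega) (g1.symm.trans k1); omega
      · have := linj _ _ (by omega) (by omega) (g1.symm.trans k1); omega
    · rcases hg' with ⟨k1, k2, k3⟩ | ⟨k1, k2, k3⟩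
      · have := linj _ _ (by omega) (by omega) (g1.symm.trans k1); omega
      · have h7 := linj _ _ (by omega) (by omega) (g1.symm.trans k1)
        have h8 : i' = (i : ℕ) := by omega
        rw [h8] at g3
        omega
    · rcases hg' with ⟨k1, k2, k3⟩ | ⟨k1, k2, k3⟩
      · have h7 := linj _ _ (by omega) (by omega) (g1.symm.trans k1)
        have h8 : i' = (i : ℕ) := by omega
        rw [h8] at g2
        omega
      · have := linj _ _ (by omega) (by omega) (g1.symm.trans k1); omega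
  refine ⟨φ, ?_, ?_, ?_⟩
  · rintro ⟨x, _ | i⟩
    · exact (cen_conn x q).1
    · exact leaf_conn x i
  · rintro ⟨x, o⟩ ⟨x', o'⟩ g hg hg'
    have hx := hxx x x' o o' g hg hg'
    subst hx
    rcases o with _ | i
    · rcases o' with _ | i'
      · rfl
      · exact absurd hg' (hcl x i' g hg)
    · rcases o' with _ | i'
      · exact absurd hg (hcl x i g hg')
      · have hi := i.2
        have hi' := i'.2
        have h8 : (i : ℕ) = i' := by
          rcases hg with ⟨g1, _, _⟩ | ⟨g1, _, _⟩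
          · rcases hg' with ⟨k1, _, _⟩ | ⟨k1, _, _⟩
            · have := linj _ _ (by omega) (by omega) (g1.symm.trans k1); omega
            · have := linj _ _ (by omega) (by omega) (g1.symm.trans k1); omega
          · rcases hg' with ⟨k1, _, _⟩ | ⟨k1, _, _⟩
            · have := linj _ _ (by omega) (by omega) (g1.symm.trans k1); omega
            · have := linj _ _ (by omega) (by omega) (g1.symm.trans k1); omega
        rw [Fin.ext h8]
  · have up : ∀ (x : ℤ) (o : Option (Fin q)), ∃ p ∈ φ (x, o), ∃ p' ∈ φ (x + 1, o),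
        (cay S).Adj p p' := by
      rintro x (_ | i)
      · show ∃ p ∈ cen q x, ∃ p' ∈ cen q (x + 1), (cay S).Adj p p'
        obtain ⟨g, g1, g2, g3⟩ := pt T e (l 0) (P * x + P - H)
        refine ⟨g, Or.inl ⟨g1, by omega, by omega⟩, g * s, Or.inl ⟨by rw [zs]; exact g1, ?_, ?_⟩,
          cay_adj_mul T.gen _ T.hs⟩
        · rw [hs, mul_add, mul_one]; omega
        · rw [hs, mul_add, mul_one]; omega
      · show ∃ p ∈ leaf x i, ∃ p' ∈ leaf (x + 1) i, (cay S).Adj p p'
        have t1 := v1 i; have t2 := v2 i; have t3 := a1 i; have t4 := a2 i; have t5 := hab i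
        have t6 := v1 (i + 1); have t7 := v2 (i + 1); have t8 := u1 (i + 1)
        have t9 := u2 (i + 1); have t0 := τs i
        obtain ⟨p, p', h1, h2, h3, h4, h5, h6, h7⟩ := edge T hn e he (l (2 * i + 1))
          (h (u (i + 1)) + P * x + 1)
        rw [l3] at h2
        rw [← hW] at h5
        refine ⟨p, Or.inr ⟨h1, by omega, by omega⟩, p', Or.inl ⟨h2, ?_, ?_⟩, ?_⟩
        · rw [mul_add, mul_one]; omega
        · rw [mul_add, mul_one]; omega
        · rw [cay_adj T.gen]; exact h3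
    have sp : ∀ (x : ℤ) (i : Fin q), ∃ p ∈ φ (x, none), ∃ p' ∈ φ (x, some i),
        (cay S).Adj p p' := by
      intro x i
      show ∃ p ∈ cen q x, ∃ p' ∈ leaf x i, (cay S).Adj p p'
      have t1 := v1 i; have t2 := v2 i; have t3 := a1 i; have t4 := a2 i
      refine ⟨a i * z x, Or.inr ⟨i, i.2, Or.inl ⟨by rw [zl, ha], ?_, ?_⟩⟩, a i * z x * s,
        Or.inr ⟨by rw [zs, zl, ha], ?_, ?_⟩, cay_adj_mul T.gen _ T.hs⟩
      · rw [zh]; omega
      · rw [zh]
      · rw [hs, zh]; omega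
      · rw [hs, zh]; omega
    rintro ⟨x, o⟩ ⟨x', o'⟩ hadj
    unfold StarZ at hadj
    rw [SimpleGraph.fromRel_adj] at hadj
    obtain ⟨hne, (⟨h1, h2⟩ | ⟨h1, h2⟩) | (⟨h1, h2⟩ | ⟨h1, h2⟩)⟩ := hadj
    · simp only at h1 h2
      subst h1 h2
      exact up x o
    · simp only at h1 h2
      subst h1 h2
      rcases o' with _ | i
      · exact absurd rfl hne
      · exact sp x i
    · simp only at h1 h2
      subst h1 h2
      obtain ⟨p, hp, p', hp', hpp⟩ := up x' o'
      exact ⟨p', hp', p, hp, hpp.symm⟩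
    · simp only at h1 h2
      subst h1 h2
      rcases o with _ | i
      · exact absurd rfl hne
      · obtain ⟨p, hp, p', hp', hpp⟩ := sp x' i
        exact ⟨p', hp', p, hp, hpp.symm⟩

end Pool.Agent.Helper94.NW
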