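import Pool.Agent.Helper61.NW.Goals

/-!
# Packet CYL of the project NW: cylinders without crossings
-/

set_option autoImplicit false

namespace Pool.Agent.Helper94.NW

open Pool.Agent.Helper52.Wq2 Pool.Agent.Helper61.NW

/-- The height of a route. -/
def ht (L δ x : ℤ) : ℤ := L + max (-x) (min x δ)

theorem ht_step (L δ x : ℤ) (hx : 0 ≤ x) :
    ht L δ (x + 1) = ht L δ x ∨ ht L δ (x + 1) = ht L δ x + 1 ∨ ht L δ x = ht L δ (x + 1) + 1 := by
  unfold ht
  omega

theorem ht_zero (L δ : ℤ) : ht L δ 0 = L := by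
  unfold ht
  omega

theorem ht_end (L δ x : ℤ) (h1 : δ ≤ x) (h2 : -x ≤ δ) : ht L δ x = L + δ := by
  unfold ht
  omega

theorem ht_lt (L δ L' δ' x : ℤ) (hx : 0 ≤ x) (h1 : L + 3 ≤ L') (h2 : L + δ + 3 ≤ L' + δ') :
    ht L δ x + 3 ≤ ht L' δ' x := by
  unfold ht
  omega

theorem adjV (M : ℕ) (y : ℤ) (c : ZMod M) : (Cyl M).Adj (y, c) (y + 1, c) := by
  unfold Cyl
  rw [SimpleGraph.fromRel_adj]
  refine ⟨?_, Or.inl (Or.inl ⟨rfl, rfl⟩)⟩
  intro h
  have := congrArg Prod.fst h
  simp at this

theorem adjH (M : ℕ) (hM : 2 ≤ M) (y : ℤ) (c : ZMod M) : (Cyl M).Adj (y, c) (y, c + 1) := by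
  unfold Cyl
  rw [SimpleGraph.fromRel_adj]
  refine ⟨?_, Or.inl (Or.inr ⟨rfl, rfl⟩)⟩
  intro h
  have h1 := congrArg Prod.snd h
  have h2 : (1 : ZMod M) = 0 := by
    have : c + 1 = c + 0 := by rw [add_zero]; exact h1.symm
    exact add_left_cancel this
  have h3 : Fact (1 < M) := ⟨by omega⟩
  exact one_ne_zero h2

section

variable (n D M : ℕ) (E : ZMod n → ℤ → ℤ → Prop)

/-- The constants. -/
def cC : ℤ := 6 * (D + 1)

def cw : ℤ := 6 * D * D + 2

def cL (a b : ℤ) : ℤ := cC D * a + 3 * (b - a + D) + 1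

def cR (a b : ℤ) : ℤ := cC D * b + 3 * (a - b + D) + 1

def wd (j : ZMod n) : ℤ := if (j.val : ℤ) = n - 1 then M - cw D * (n - 1) else cw D

def col (j : ZMod n) (x : ℤ) : ZMod M := ((cw D * (j.val : ℤ) + x : ℤ) : ZMod M)

/-- The cells of the route of the edge `(a, b)` of the gap `j`. -/
def cell (j : ZMod n) (a b x y : ℤ) : Prop :=
  min (ht (cL D a b) (cR D a b - cL D a b) x) (ht (cL D a b) (cR D a b - cL D a b) (x + 1)) ≤ y ∧
    y ≤ max (ht (cL D a b) (cR D a b - cL D a b) x)
      (ht (cL D a b) (cR D a b - cL D a b) (x + 1))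

/-- The branch sets. -/
def br (v : ℤ × ZMod n) : Set (ℤ × ZMod M) :=
  {p | (p.2 = col n D M v.2 0 ∧ cC D * v.1 ≤ p.1 ∧ p.1 < cC D * v.1 + cC D) ∨
    ∃ b, E v.2 v.1 b ∧ ∃ x : ℤ, 1 ≤ x ∧ x < wd n D M v.2 ∧ p.2 = col n D M v.2 x ∧
      cell n D v.2 v.1 b x p.1}

end

theorem col_add (n D M : ℕ) (j : ZMod n) (x : ℤ) : col n D M j (x + 1) = col n D M j x + 1 := by
  unfold col
  push_cast
  ring

theorem cC_pos (D : ℕ) : 6 ≤ cC D := by unfold cC; omega

theorem cw_pos (D : ℕ) : 2 ≤ cw D := by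
  unfold cw
  have : (0 : ℤ) ≤ 6 * D * D := by positivity
  omega

theorem wd_ge (n D M : ℕ) (hM : cw D * n ≤ M) (j : ZMod n) : cw D ≤ wd n D M j := by
  unfold wd
  split_ifs
  · rw [mul_sub, mul_one]; omega
  · exact le_refl _

theorem col_inj (n D M : ℕ) (hn : 3 ≤ n) (hM : cw D * n ≤ M) (j j' : ZMod n) (x x' : ℤ)
    (hx : 0 ≤ x) (hx1 : x < wd n D M j) (hx' : 0 ≤ x') (hx1' : x' < wd n D M j')
    (h : col n D M j x = col n D M j' x') : j = j' ∧ x = x' := by
  have hne : NeZero n := ⟨by omega⟩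
  have hw := cw_pos D
  have bd : ∀ (j : ZMod n) (x : ℤ), 0 ≤ x → x < wd n D M j →
      0 ≤ cw D * (j.val : ℤ) + x ∧ cw D * (j.val : ℤ) + x < M := by
    intro j x h0 h1
    have h2 : (j.val : ℤ) ≤ n - 1 := by have := j.val_lt; omega
    have h3 : 0 ≤ cw D * (j.val : ℤ) := mul_nonneg (by omega) (by positivity)
    refine ⟨by omega, ?_⟩
    unfold wd at h1
    split_ifs at h1 with h4
    · rw [h4]; omega
    · have h5 : (j.val : ℤ) + 1 ≤ n - 1 := by omega
      have h6 := mul_le_mul_of_nonneg_left h5 (by omega : 0 ≤ cw D)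
      rw [mul_add, mul_one] at h6
      rw [mul_sub, mul_one] at h6
      omega
  obtain ⟨a1, a2⟩ := bd j x hx hx1
  obtain ⟨b1, b2⟩ := bd j' x' hx' hx1'
  unfold col at h
  rw [ZMod.intCast_eq_intCast_iff] at h
  have e : cw D * (j.val : ℤ) + x = cw D * (j'.val : ℤ) + x' := by
    have h7 : (cw D * (j.val : ℤ) + x) % M = (cw D * (j'.val : ℤ) + x') % M := h
    rw [Int.emod_eq_of_lt a1 a2, Int.emod_eq_of_lt b1 b2] at h7
    exact h7
  have key : ∀ (j j' : ZMod n) (x x' : ℤ), 0 ≤ x' → x < wd n D M j →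
      cw D * (j.val : ℤ) + x = cw D * (j'.val : ℤ) + x' → ¬ j.val < j'.val := by
    intro j j' x x' h0 h1 h2 h3
    have h4 : (j'.val : ℤ) ≤ n - 1 := by have := j'.val_lt; omega
    have h5 : (j.val : ℤ) + 1 ≤ (j'.val : ℤ) := by omega
    have h6 := mul_le_mul_of_nonneg_left h5 (by omega : 0 ≤ cw D)
    rw [mul_add, mul_one] at h6
    unfold wd at h1
    rw [if_neg (by omega)] at h1
    omega
  have e1 := key j j' x x' hx' hx1 e
  have e2 := key j' j x' x hx hx1' e.symm
  have e3 : j.val = j'.val := by omega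
  refine ⟨ZMod.val_injective n e3, ?_⟩
  rw [e3] at e
  omega

theorem col_wd (n D M : ℕ) (hn : 3 ≤ n) (j : ZMod n) :
    col n D M j (wd n D M j) = col n D M (j + 1) 0 := by
  have hne : NeZero n := ⟨by omega⟩
  have h1n : Fact (1 < n) := ⟨by omega⟩
  have hv : (j + 1).val = (j.val + 1) % n := by rw [ZMod.val_add, ZMod.val_one]
  have hlt := j.val_lt
  unfold col wd
  split_ifs with h
  · have h2 : j.val + 1 = n := by omega
    rw [hv, h2, Nat.mod_self, h]
    push_cast
    ring_nf
    simp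
  · have h2 : j.val + 1 < n := by omega
    rw [hv, Nat.mod_eq_of_lt h2]
    push_cast
    ring

theorem order (n D : ℕ) (E : ZMod n → ℤ → ℤ → Prop)
    (hE : ∀ j a b a' b', E j a b → E j a' b' → a < a' → b ≤ b') (j : ZMod n) (a b a' b' : ℤ)
    (h : E j a b) (h' : E j a' b') (hne : a ≠ a') :
    (cL D a b + 3 ≤ cL D a' b' ∧ cR D a b + 3 ≤ cR D a' b') ∨
      (cL D a' b' + 3 ≤ cL D a b ∧ cR D a' b' + 3 ≤ cR D a b) := by
  have hC := cC_pos D
  have key : ∀ a b a' b' : ℤ, a < a' → b ≤ b' →
      cL D a b + 3 ≤ cL D a' b' ∧ cR D a b + 3 ≤ cR D a' b' := by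
    intro a b a' b' h1 h2
    unfold cL cR
    constructor
    · nlinarith [mul_nonneg (by omega : 0 ≤ cC D - 3) (by omega : 0 ≤ a' - a - 1)]
    · nlinarith [mul_nonneg (by omega : 0 ≤ cC D - 3) (by omega : 0 ≤ b' - b)]
  rcases lt_or_gt_of_ne hne with h1 | h1
  · exact Or.inl (key a b a' b' h1 (hE j a b a' b' h h' h1))
  · exact Or.inr (key a' b' a b h1 (hE j a' b' a b h' h h1))

theorem delta_le (D : ℕ) (a b : ℤ) (h : |a - b| ≤ D) :
    cR D a b - cL D a b ≤ cw D ∧ -cw D ≤ cR D a b - cL D a b := by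
  have e : cR D a b - cL D a b = 6 * D * (b - a) := by
    unfold cR cL cC
    ring
  rw [abs_le] at h
  rw [e]
  unfold cw
  constructor
  · nlinarith [mul_nonneg (by positivity : (0 : ℤ) ≤ 6 * D) (by omega : 0 ≤ (D : ℤ) - (b - a))]
  · nlinarith [mul_nonneg (by positivity : (0 : ℤ) ≤ 6 * D) (by omega : 0 ≤ (D : ℤ) + (b - a))]

theorem cL_mem (D : ℕ) (a b : ℤ) (h : |a - b| ≤ D) :
    cC D * a + 1 ≤ cL D a b ∧ cL D a b + 1 < cC D * a + cC D := by
  rw [abs_le] at h
  unfold cL
  have : cC D = 6 * (D + 1) := rfl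
  omega

theorem cR_mem (D : ℕ) (a b : ℤ) (h : |a - b| ≤ D) :
    cC D * b ≤ cR D a b ∧ cR D a b < cC D * b + cC D := by
  rw [abs_le] at h
  unfold cR
  have : cC D = 6 * (D + 1) := rfl
  omega

theorem cyl : CylStmt := by
  intro n hn D E hD hE
  refine ⟨(cw D * n).toNat, ?_⟩
  intro M hM
  have hw := cw_pos D
  have hC := cC_pos D
  have hwn : 0 ≤ cw D * n := mul_nonneg (by omega) (by positivity)
  have hM' : cw D * n ≤ M := by omega
  have hM2 : 2 ≤ M := by
    have h1 : (3 : ℤ) ≤ n := by exact_mod_cast hn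
    have := mul_le_mul_of_nonneg_left h1 (by omega : 0 ≤ cw D)
    omega
  refine ⟨br n D M E, ?_, ?_, ?_⟩
  · -- connected
    rintro ⟨a, j⟩
    have hroot : ((cC D * a, col n D M j 0) : ℤ × ZMod M) ∈ br n D M E (a, j) :=
      Or.inl ⟨rfl, le_refl _, by simp only; omega⟩
    refine conn_of_root hroot ?_
    have c1 : ∀ k : ℕ, (k : ℤ) < cC D → Relation.ReflTransGen
        (fun p q => (Cyl M).Adj p q ∧ q ∈ br n D M E (a, j)) (cC D * a, col n D M j 0)
        (cC D * a + k, col n D M j 0) := by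
      intro k
      induction k with
      | zero => intro _; rw [Nat.cast_zero, add_zero]
      | succ k ih =>
        intro hk
        push_cast at hk ⊢
        refine (ih (by omega)).tail ⟨?_, Or.inl ⟨rfl, by simp only; omega, by simp only; omega⟩⟩
        rw [← add_assoc]
        exact adjV M _ _
    have c1' : ∀ y : ℤ, cC D * a ≤ y → y < cC D * a + cC D → Relation.ReflTransGen
        (fun p q => (Cyl M).Adj p q ∧ q ∈ br n D M E (a, j)) (cC D * a, col n D M j 0)
        (y, col n D M j 0) := by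
      intro y h1 h2
      have h3 := c1 (y - cC D * a).toNat (by omega)
      have h4 : cC D * a + ((y - cC D * a).toNat : ℤ) = y := by omega
      rw [h4] at h3
      exact h3
    rintro ⟨y, q⟩ hp
    rcases hp with ⟨h1, h2, h3⟩ | ⟨b, hb, x, hx, hx1, hq, hy⟩
    · simp only at h1 h2 h3
      rw [h1]
      exact c1' y h2 h3
    · simp only at hb hx1 hq hy
      have hab := hD j a b hb
      have hLm := cL_mem D a b hab
      obtain ⟨L, hL⟩ : ∃ L, L = cL D a b := ⟨_, rfl⟩
      obtain ⟨δ, hδ⟩ : ∃ δ, δ = cR D a b - cL D a b := ⟨_, rfl⟩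
      have inbr : ∀ x y : ℤ, 1 ≤ x → x < wd n D M j →
          (y = ht L δ x ∨ y = ht L δ (x + 1)) → ((y, col n D M j x) : ℤ × ZMod M) ∈
            br n D M E (a, j) := by
        intro x y h1 h2 h3
        refine Or.inr ⟨b, hb, x, h1, h2, rfl, ?_⟩
        unfold cell
        rw [← hδ, ← hL]
        simp only
        omega
      have vert : ∀ x : ℤ, 1 ≤ x → x < wd n D M j → Relation.ReflTransGen
          (fun p q => (Cyl M).Adj p q ∧ q ∈ br n D M E (a, j)) (cC D * a, col n D M j 0)
          (ht L δ x, col n D M j x) → Relation.ReflTransGen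
          (fun p q => (Cyl M).Adj p q ∧ q ∈ br n D M E (a, j)) (cC D * a, col n D M j 0)
          (ht L δ (x + 1), col n D M j x) := by
        intro x h1 h2 h3
        rcases ht_step L δ x (by omega) with h4 | h4 | h4
        · rw [h4]; exact h3
        · refine h3.tail ⟨?_, inbr x _ h1 h2 (Or.inr rfl)⟩
          rw [h4]
          exact adjV M _ _
        · refine h3.tail ⟨?_, inbr x _ h1 h2 (Or.inr rfl)⟩
          rw [h4]
          exact (adjV M _ _).symm
      have main : ∀ k : ℕ, (k : ℤ) + 1 < wd n D M j → Relation.ReflTransGen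
          (fun p q => (Cyl M).Adj p q ∧ q ∈ br n D M E (a, j)) (cC D * a, col n D M j 0)
          (ht L δ ((k : ℤ) + 1), col n D M j ((k : ℤ) + 1)) := by
        intro k
        induction k with
        | zero =>
          intro h1
          have h2 := ht_step L δ 0 le_rfl
          rw [ht_zero] at h2
          rw [Nat.cast_zero]
          have h3 : Relation.ReflTransGen
              (fun p q => (Cyl M).Adj p q ∧ q ∈ br n D M E (a, j)) (cC D * a, col n D M j 0)
              (ht L δ (0 + 1), col n D M j 0) := c1' _ (by omega) (by omega)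
          refine h3.tail ⟨?_, inbr _ _ (by omega) (by simpa using h1) (Or.inl rfl)⟩
          rw [col_add]
          exact adjH M hM2 _ _
        | succ k ih =>
          intro h1
          push_cast at h1 ⊢
          have h2 := vert _ (by omega) (by omega) (ih (by omega))
          refine h2.tail ⟨?_, inbr _ _ (by omega) h1 (Or.inl rfl)⟩
          rw [col_add n D M j ((k : ℤ) + 1)]
          exact adjH M hM2 _ _
      have hk : ((x - 1).toNat : ℤ) + 1 = x := by omega
      have h5 := main (x - 1).toNat (by omega)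
      rw [hk] at h5
      have h6 := vert x hx hx1 h5
      unfold cell at hy
      rw [← hδ, ← hL] at hy
      have h7 : y = ht L δ x ∨ y = ht L δ (x + 1) := by
        have := ht_step L δ x (by omega)
        omega
      rw [hq]
      rcases h7 with h7 | h7
      · rw [h7]; exact h5
      · rw [h7]; exact h6
  · -- disjoint
    rintro ⟨a, j⟩ ⟨a', j'⟩ ⟨y, q⟩ hp hp'
    have hwj := wd_ge n D M hM' j
    have hwj' := wd_ge n D M hM' j'
    rcases hp with ⟨h1, h2, h3⟩ | ⟨b, hb, x, hx, hx1, hq, hy⟩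
    · rcases hp' with ⟨h1', h2', h3'⟩ | ⟨b', hb', x', hx', hx1', hq', hy'⟩
      · simp only at h1 h2 h3 h1' h2' h3'
        obtain ⟨e1, _⟩ := col_inj n D M hn hM' j j' 0 0 le_rfl (by omega) le_rfl (by omega)
          (h1.symm.trans h1')
        have a1 : cC D * a < cC D * (a' + 1) := by rw [mul_add, mul_one]; omega
        have a2 : cC D * a' < cC D * (a + 1) := by rw [mul_add, mul_one]; omega
        have b1 := lt_of_mul_lt_mul_left a1 (by omega)
        have b2 := lt_of_mul_lt_mul_left a2 (by omega)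
        have : a = a' := by omega
        rw [this, e1]
      · simp only at h1 h2 h3 hq' hx1'
        obtain ⟨_, e2⟩ := col_inj n D M hn hM' j j' 0 x' le_rfl (by omega) (by omega) hx1'
          (h1.symm.trans hq')
        omega
    · rcases hp' with ⟨h1', h2', h3'⟩ | ⟨b', hb', x', hx', hx1', hq', hy'⟩
      · simp only at h1' hq hx1
        obtain ⟨_, e2⟩ := col_inj n D M hn hM' j j' x 0 (by omega) hx1 le_rfl (by omega)
          (hq.symm.trans h1')
        omega
      · simp only at hb hx1 hq hy hb' hx1' hq' hy'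
        obtain ⟨e1, e2⟩ := col_inj n D M hn hM' j j' x x' (by omega) hx1 (by omega) hx1'
          (hq.symm.trans hq')
        subst e1 e2
        by_cases hne : a = a'
        · rw [hne]
        exfalso
        unfold cell at hy hy'
        have s1 := ht_step (cL D a b) (cR D a b - cL D a b) x (by omega)
        have s2 := ht_step (cL D a' b') (cR D a' b' - cL D a' b') x (by omega)
        rcases order n D E hE j a b a' b' hb hb' hne with ⟨o1, o2⟩ | ⟨o1, o2⟩
        · have t1 := ht_lt (cL D a b) (cR D a b - cL D a b) (cL D a' b')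
            (cR D a' b' - cL D a' b') x (by omega) o1 (by omega)
          have t2 := ht_lt (cL D a b) (cR D a b - cL D a b) (cL D a' b')
            (cR D a' b' - cL D a' b') (x + 1) (by omega) o1 (by omega)
          omega
        · have t1 := ht_lt (cL D a' b') (cR D a' b' - cL D a' b') (cL D a b)
            (cR D a b - cL D a b) x (by omega) o1 (by omega)
          have t2 := ht_lt (cL D a' b') (cR D a' b' - cL D a' b') (cL D a b)
            (cR D a b - cL D a b) (x + 1) (by omega) o1 (by omega)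
          omega
  · -- adjacent
    have step : ∀ (u v : ℤ × ZMod n),
        ((v.2 = u.2 ∧ v.1 = u.1 + 1) ∨ (v.2 = u.2 + 1 ∧ E u.2 u.1 v.1)) →
        ∃ p ∈ br n D M E u, ∃ q ∈ br n D M E v, (Cyl M).Adj p q := by
      rintro ⟨a, j⟩ ⟨a', j'⟩ (⟨h1, h2⟩ | ⟨h1, h2⟩)
      · simp only at h1 h2
        subst h1 h2
        refine ⟨(cC D * a + cC D - 1, col n D M j' 0), Or.inl ⟨rfl, by simp only; omega,
          by simp only; omega⟩, (cC D * a + cC D - 1 + 1, col n D M j' 0),
          Or.inl ⟨rfl, ?_, ?_⟩, adjV M _ _⟩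
        · simp only
          rw [mul_add, mul_one]; omega
        · simp only
          rw [mul_add, mul_one]; omega
      · simp only at h1 h2
        subst h1
        have hab := hD j a a' h2
        have hwj := wd_ge n D M hM' j
        obtain ⟨d1, d2⟩ := delta_le D a a' hab
        have hend := ht_end (cL D a a') (cR D a a' - cL D a a') (wd n D M j) (by omega) (by omega)
        have hRm := cR_mem D a a' hab
        refine ⟨(cR D a a', col n D M j (wd n D M j - 1)), Or.inr ⟨a', h2, wd n D M j - 1,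
          by omega, by simp only; omega, rfl, ?_⟩, (cR D a a', col n D M (j + 1) 0),
          Or.inl ⟨rfl, hRm.1, hRm.2⟩, ?_⟩
        · unfold cell
          rw [sub_add_cancel, hend]
          simp only
          omega
        · have e : col n D M (j + 1) 0 = col n D M j (wd n D M j - 1) + 1 := by
            rw [← col_add, sub_add_cancel, col_wd n D M hn]
          rw [e]
          exact adjH M hM2 _ _
    intro u v huv
    rw [SimpleGraph.fromRel_adj] at huv
    obtain ⟨_, h | h⟩ := huv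
    · exact step u v h
    · obtain ⟨p, hp, q, hq, hpq⟩ := step v u h
      exact ⟨q, hq, p, hp, hpq.symm⟩

end Pool.Agent.Helper94.NW
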