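import Pool.Agent.Helper61.NW.Goals2
import Pool.Agent.Helper94.NW.CRX2

/-!
# Packet LCX of the project NW+: line systems with crossings
-/

set_option autoImplicit false

namespace Pool.Agent.Helper94.NW

open Pool.Agent.Helper52.Wq2 Pool.Agent.Helper61.NW

section

variable {n m : ℕ} {G : SimpleGraph (ℤ × Fin n)}

/-- A crossing between two lines. -/
def Xl (G : SimpleGraph (ℤ × Fin n)) (u v : Fin n) : Prop :=
  ∃ a : ℤ, G.Adj (a, u) (a + 1, v) ∧ G.Adj (a + 1, u) (a, v)

theorem Xl_symm {u v : Fin n} (h : Xl G u v) : Xl G v u := by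
  obtain ⟨a, h1, h2⟩ := h
  exact ⟨a, h2.symm, h1.symm⟩

theorem Xl_move (T : Lsys n m G) (e : Fin n ≃ ZMod n) (he : LCyc G e) (i i' : Fin n) :
    ∃ τ : Equiv.Perm (Fin n), τ i = i' ∧ ∀ j, j ≠ i → Xl G i j → Xl G i' (τ j) ∧
      (e (τ j) = e i' + 1 ∨ e i' = e (τ j) + 1) := by
  obtain ⟨f, τ, ep, c, hep, hτ, hf⟩ := T.trans i i'
  refine ⟨τ, hτ, ?_⟩
  rintro j hji ⟨a, h1, h2⟩
  have k1 : G.Adj (f (a, i)) (f (a + 1, j)) := f.map_adj_iff.2 h1
  have k2 : G.Adj (f (a + 1, i)) (f (a, j)) := f.map_adj_iff.2 h2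
  rw [hf, hf, hτ] at k1 k2
  have n1 := abs_le.1 (T.near _ _ _ _ k1)
  have n2 := abs_le.1 (T.near _ _ _ _ k2)
  have hX : Xl G i' (τ j) := by
    rcases hep with rfl | rfl
    · have hc : c i = c j := by omega
      refine ⟨1 * a + c i, ?_, ?_⟩
      · have e1 : 1 * (a + 1) + c j = 1 * a + c i + 1 := by rw [hc]; ring
        rw [e1] at k1
        exact k1
      · have e1 : 1 * (a + 1) + c i = 1 * a + c i + 1 := by ring
        rw [e1, ← hc] at k2
        exact k2
    · have hc : c i = c j := by omega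
      refine ⟨-1 * (a + 1) + c i, ?_, ?_⟩
      · have e1 : -1 * a + c j = -1 * (a + 1) + c i + 1 := by rw [hc]; ring
        rw [e1] at k2
        exact k2
      · have e1 : -1 * a + c i = -1 * (a + 1) + c i + 1 := by ring
        rw [e1, ← hc] at k1
        exact k1
  refine ⟨hX, ?_⟩
  have hne : i' ≠ τ j := by
    rw [← hτ]
    intro h3
    exact hji (τ.injective h3).symm
  have hadj : (Lg G).Adj i' (τ j) := by
    unfold Lg
    rw [SimpleGraph.fromRel_adj]
    exact ⟨hne, Or.inl ⟨_, _, k1⟩⟩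
  exact (he _ _).1 hadj

theorem l_step (T : Lsys n m G) (hn : 3 ≤ n) (e : Fin n ≃ ZMod n) (he : LCyc G e) (j : ZMod n)
    (hj : Xl G (e.symm j) (e.symm (j + 1))) :
    Xl G (e.symm (j + 2)) (e.symm (j + 2 + 1)) := by
  have hne1 : e.symm (j + 1) ≠ e.symm j := by
    intro h3
    have h4 := e.symm.injective h3
    exact one_ne hn (by simpa using h4)
  obtain ⟨τ, t1, t2⟩ := Xl_move T e he (e.symm j) (e.symm (j + 2))
  obtain ⟨hX, h3 | h3⟩ := t2 _ hne1 hj
  · rw [e.apply_symm_apply] at h3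
    have h4 : τ (e.symm (j + 1)) = e.symm (j + 2 + 1) := by
      rw [← h3, e.symm_apply_apply]
    rw [h4] at hX
    exact hX
  · rw [e.apply_symm_apply] at h3
    have h4 : e (τ (e.symm (j + 1))) = j + 1 := by
      have h5 : j + 1 + 1 = e (τ (e.symm (j + 1))) + 1 := by rw [← h3]; ring
      exact (add_right_cancel h5).symm
    have h4' : τ (e.symm (j + 1)) = e.symm (j + 1) := e.eq_symm_apply.2 h4
    rw [h4'] at hX
    -- the line `j + 1` has crossings on both sides
    have X1 := Xl_symm hX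
    have X2 := Xl_symm hj
    obtain ⟨σ, s1, s2⟩ := Xl_move T e he (e.symm (j + 1)) (e.symm (j + 2))
    have m1 : e.symm (j + 2) ≠ e.symm (j + 1) := by
      intro h5
      have h6 := e.symm.injective h5
      apply one_ne hn
      have : j + 1 + 1 = j + 1 + 0 := by rw [add_zero, add_assoc, one_add_one_eq_two]; exact h6
      exact add_left_cancel this
    obtain ⟨Y1, d1⟩ := s2 _ m1 X1
    obtain ⟨Y2, d2⟩ := s2 _ hne1.symm X2
    rw [e.apply_symm_apply] at d1 d2
    have hne : e (σ (e.symm (j + 2))) ≠ e (σ (e.symm j)) := by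
      intro h5
      have h6 := e.symm.injective (σ.injective (e.injective h5))
      apply two_ne hn
      have : j + 2 = j + 0 := by rw [add_zero]; exact h6
      exact add_left_cancel this
    have fin : ∀ k : Fin n, Xl G (e.symm (j + 2)) k → e k = j + 2 + 1 →
        Xl G (e.symm (j + 2)) (e.symm (j + 2 + 1)) := by
      intro k hk1 hk2
      rw [← hk2, e.symm_apply_apply]
      exact hk1
    rcases d1 with d1 | d1
    · exact fin _ Y1 d1
    · rcases d2 with d2 | d2
      · exact fin _ Y2 d2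
      · exact absurd (add_right_cancel (d1.symm.trans d2)) hne

theorem l_all (T : Lsys n m G) (hn : 3 ≤ n) (e : Fin n ≃ ZMod n) (he : LCyc G e) (j : ZMod n)
    (hj : Xl G (e.symm j) (e.symm (j + 1))) (i : ℕ) :
    Xl G (e.symm (j + ((2 * i : ℕ) : ZMod n))) (e.symm (j + ((2 * i : ℕ) : ZMod n) + 1)) := by
  induction i with
  | zero => simpa using hj
  | succ i ih =>
    have := l_step T hn e he _ ih
    have e1 : j + ((2 * (i + 1) : ℕ) : ZMod n) = j + ((2 * i : ℕ) : ZMod n) + 2 := by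
      push_cast; ring
    rw [e1]
    exact this

theorem per_mul (T : Lsys n m G) (a b : ℤ) (i j : Fin n) (h : G.Adj (a, i) (b, j)) (c : ℤ) :
    G.Adj (a + m * c, i) (b + m * c, j) := by
  induction c using Int.induction_on with
  | zero => simpa using h
  | succ c ih =>
    have := (T.per _ _ _ _).1 ih
    have e1 : ∀ x : ℤ, x + m * ((c : ℤ) + 1) = x + m * c + m := by intro x; ring
    rw [e1, e1]
    exact this
  | pred c ih =>
    rw [T.per]
    have e1 : ∀ x : ℤ, x + m * (-(c : ℤ) - 1) + m = x + m * (-(c : ℤ)) := by intro x; ring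
    rw [e1, e1]
    exact ih

theorem l_edge (T : Lsys n m G) (i j : Fin n) (h : (Lg G).Adj i j) (t : ℤ) :
    ∃ u v : ℤ, G.Adj (u, i) (v, j) ∧ t ≤ v ∧ v < t + m ∧ v - 1 ≤ u ∧ u ≤ v + 1 := by
  obtain ⟨u, v, huv⟩ : ∃ u v : ℤ, G.Adj (u, i) (v, j) := by
    unfold Lg at h
    rw [SimpleGraph.fromRel_adj] at h
    obtain ⟨_, ⟨a, b, h1⟩ | ⟨a, b, h1⟩⟩ := h
    · exact ⟨a, b, h1⟩
    · exact ⟨b, a, h1.symm⟩
  have hm : (0 : ℤ) < m := by exact_mod_cast T.mpos
  have h1 := Int.emod_nonneg (v - t) hm.ne'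
  have h2 := Int.emod_lt_of_pos (v - t) hm
  have h3 := Int.emod_add_mul_ediv (v - t) m
  have h4 := abs_le.1 (T.near _ _ _ _ huv)
  have e1 : (m : ℤ) * (-((v - t) / m)) = -(m * ((v - t) / m)) := by ring
  refine ⟨u + m * (-((v - t) / m)), v + m * (-((v - t) / m)), per_mul T _ _ _ _ huv _, ?_, ?_,
    ?_, ?_⟩ <;> rw [e1] <;> omega

theorem l_cross (T : Lsys n m G) (i j : Fin n) (h : Xl G i j) (t : ℤ) :
    ∃ a : ℤ, G.Adj (a, i) (a + 1, j) ∧ G.Adj (a + 1, i) (a, j) ∧ t ≤ a ∧ a < t + m := by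
  obtain ⟨a, k1, k2⟩ := h
  have hm : (0 : ℤ) < m := by exact_mod_cast T.mpos
  have h1 := Int.emod_nonneg (a - t) hm.ne'
  have h2 := Int.emod_lt_of_pos (a - t) hm
  have h3 := Int.emod_add_mul_ediv (a - t) m
  have e1 : (m : ℤ) * (-((a - t) / m)) = -(m * ((a - t) / m)) := by ring
  have q1 := per_mul T _ _ _ _ k1 (-((a - t) / m))
  have q2 := per_mul T _ _ _ _ k2 (-((a - t) / m))
  have e2 : a + 1 + m * (-((a - t) / m)) = a + m * (-((a - t) / m)) + 1 := by ring
  rw [e2] at q1 q2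
  refine ⟨a + m * (-((a - t) / m)), q1, q2, ?_, ?_⟩ <;> rw [e1] <;> omega

/-- A piece of a line. -/
def sg (j : Fin n) (u v : ℤ) : Set (ℤ × Fin n) := {g | g.2 = j ∧ u ≤ g.1 ∧ g.1 ≤ v}

theorem conn_sg (T : Lsys n m G) (j : Fin n) (u v : ℤ) (g : ℤ × Fin n) (hg : g ∈ sg j u v) :
    Conn G (sg j u v) := by
  obtain ⟨h1, h2, h3⟩ := hg
  have hset : sg j u v = {x | ∃ k : ℤ, (u ≤ k ∧ k ≤ v) ∧ ((k, j) : ℤ × Fin n) = x} := by
    ext ⟨x, y⟩
    constructor
    · rintro ⟨k1, k2, k3⟩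
      simp only at k1 k2 k3
      exact ⟨x, ⟨k2, k3⟩, by rw [k1]⟩
    · rintro ⟨k, ⟨k2, k3⟩, k1⟩
      rw [← k1]
      exact ⟨rfl, k2, k3⟩
  rw [hset]
  refine conn_line (fun k : ℤ => ((k, j) : ℤ × Fin n)) _ g.1 ⟨h2, h3⟩ ?_ ?_ ?_
  · rintro k hk ⟨k1, k2⟩
    exact ⟨by omega, by omega⟩
  · rintro k hk ⟨k1, k2⟩
    exact ⟨by omega, by omega⟩
  · intro k _ _
    exact T.step k j

end

theorem lcx : LcxStmt := by
  intro n m G T hn e he hj q hq
  obtain ⟨j, hj⟩ := hj
  have hj' : Xl G (e.symm j) (e.symm (j + 1)) := by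
    obtain ⟨a, u, v, hu, hv, k1, k2⟩ := hj
    have e1 : e.symm j = u := by rw [← hu, e.symm_apply_apply]
    have e2 : e.symm (j + 1) = v := by rw [← hv, e.symm_apply_apply]
    rw [e1, e2]
    exact ⟨a, k1, k2⟩
  obtain ⟨W, hW⟩ : ∃ W : ℤ, W = m := ⟨_, rfl⟩
  have hHW : (1 : ℤ) ≤ W := by rw [hW]; exact_mod_cast T.mpos
  obtain ⟨P, hP⟩ : ∃ P : ℤ, P = 16 * W := ⟨_, rfl⟩
  obtain ⟨l, hl⟩ : ∃ l : ℕ → Fin n, l = fun k : ℕ => e.symm (j - 1 + (k : ZMod n)) := ⟨_, rfl⟩
  have l1 : ∀ i : ℕ, l (2 * i + 1) = e.symm (j + ((2 * i : ℕ) : ZMod n)) := by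
    intro i; rw [hl]; simp only; congr 1; push_cast; ring
  have l2 : ∀ i : ℕ, l (2 * i + 2) = e.symm (j + ((2 * i : ℕ) : ZMod n) + 1) := by
    intro i; rw [hl]; simp only; congr 1; push_cast; ring
  have l3 : ∀ k : ℕ, (Lg G).Adj (l k) (l (k + 1)) := by
    intro k
    rw [he, hl]
    simp only [e.apply_symm_apply]
    left
    push_cast
    ring
  have linj : ∀ k k' : ℕ, k < n → k' < n → l k = l k' → k = k' := by
    intro k k' h1 h2 h3
    rw [hl] at h3
    exact ell_inj n j k k' h1 h2 (e.symm.injective h3)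
  obtain ⟨τ, hτ⟩ : ∃ τ : ℕ → ℤ, τ = fun i : ℕ => 8 * W * ((i : ℤ) + 1) := ⟨_, rfl⟩
  have τ0 : τ 0 = 8 * W := by rw [hτ]; simp
  have τs : ∀ i, τ (i + 1) = τ i + 8 * W := by
    intro i; rw [hτ]; push_cast; ring
  have hE : ∀ i : ℕ, ∃ u v : ℤ, G.Adj (u, l (2 * i)) (v, l (2 * i + 1)) ∧ τ i ≤ v ∧
      v < τ i + W ∧ v - 1 ≤ u ∧ u ≤ v + 1 := by
    intro i
    rw [hW]
    exact l_edge T _ _ (l3 (2 * i)) (τ i)
  choose u v huv v1 v2 u1 u2 using hE
  have hC : ∀ i : ℕ, ∃ a : ℤ, G.Adj (a, l (2 * i + 1)) (a + 1, l (2 * i + 2)) ∧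
      G.Adj (a + 1, l (2 * i + 1)) (a, l (2 * i + 2)) ∧ τ i + 3 * W ≤ a ∧
      a < τ i + 3 * W + W := by
    intro i
    have h1 := l_all T hn e he j hj' i
    rw [← l1, ← l2] at h1
    have h2 := l_cross T _ _ h1 (τ i + 3 * W)
    rw [← hW] at h2
    exact h2
  choose a c1 c2 a1 a2 using hC
  -- translation
  have zadj : ∀ (p q : ℤ) (i k : Fin n) (x : ℤ), G.Adj (p, i) (q, k) →
      G.Adj (p + P * x, i) (q + P * x, k) := by
    intro p q i k x h1
    have h2 := per_mul T _ _ _ _ h1 (16 * x)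
    have e1 : (m : ℤ) * (16 * x) = P * x := by rw [hP, hW]; ring
    rw [e1] at h2
    exact h2
  -- the branch sets
  let cen : ℕ → ℤ → Set (ℤ × Fin n) := fun r x => {g | g ∈ sg (l 0) (P * x) (P * x + P - 1) ∨
    ∃ i, i < r ∧ (g ∈ sg (l (2 * i + 1)) (v i + P * x) (a i + P * x) ∨
      g ∈ sg (l (2 * i + 2)) (a i + 1 + P * x) (u (i + 1) + P * x))}
  let leaf : ℤ → ℕ → Set (ℤ × Fin n) := fun x i =>
    sg (l (2 * i + 2)) (u (i + 1) + P * x - P + 1) (a i + 1 + P * x - 1) ∪
    sg (l (2 * i + 1)) (a i + P * x + 1) (v i + P * x + P - 1)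
  have leaf_conn : ∀ x i, Conn G (leaf x i) := by
    intro x i
    have t1 := v1 i; have t2 := v2 i; have t3 := a1 i; have t4 := a2 i
    have t6 := v1 (i + 1); have t7 := v2 (i + 1); have t8 := u1 (i + 1); have t9 := u2 (i + 1)
    have t0 := τs i
    have m1 : ((a i + P * x, l (2 * i + 2)) : ℤ × Fin n) ∈
        sg (l (2 * i + 2)) (u (i + 1) + P * x - P + 1) (a i + 1 + P * x - 1) :=
      ⟨rfl, by simp only; omega, by simp only; omega⟩
    have m2 : ((a i + 1 + P * x, l (2 * i + 1)) : ℤ × Fin n) ∈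
        sg (l (2 * i + 1)) (a i + P * x + 1) (v i + P * x + P - 1) :=
      ⟨rfl, by simp only; omega, by simp only; omega⟩
    exact (conn_sg T _ _ _ _ m1).union (conn_sg T _ _ _ _ m2) m1 m2
      ((zadj _ _ _ _ x (c2 i)).symm)
  have cen_conn : ∀ (x : ℤ) (r : ℕ), Conn G (cen r x) ∧
      ((u r + P * x, l (2 * r)) : ℤ × Fin n) ∈ cen r x := by
    intro x r
    induction r with
    | zero =>
      have t1 := v1 0; have t2 := v2 0; have t8 := u1 0; have t9 := u2 0
      have m0 : ((u 0 + P * x, l (2 * 0)) : ℤ × Fin n) ∈ sg (l 0) (P * x) (P * x + P - 1) :=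
        ⟨rfl, by simp only; omega, by simp only; omega⟩
      have hset : cen 0 x = sg (l 0) (P * x) (P * x + P - 1) := by
        ext g
        constructor
        · rintro (h1 | ⟨i, hi, _⟩)
          · exact h1
          · omega
        · exact fun h1 => Or.inl h1
      rw [hset]
      exact ⟨conn_sg T _ _ _ _ m0, m0⟩
    | succ r ih =>
      obtain ⟨ih1, ih2⟩ := ih
      have t1 := v1 r; have t2 := v2 r; have t3 := a1 r; have t4 := a2 r
      have t6 := v1 (r + 1); have t7 := v2 (r + 1); have t8 := u1 (r + 1)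
      have t9 := u2 (r + 1)
      have t0 := τs r
      have m1 : ((v r + P * x, l (2 * r + 1)) : ℤ × Fin n) ∈
          sg (l (2 * r + 1)) (v r + P * x) (a r + P * x) :=
        ⟨rfl, by simp only; omega, by simp only; omega⟩
      have m2 : ((a r + P * x, l (2 * r + 1)) : ℤ × Fin n) ∈
          sg (l (2 * r + 1)) (v r + P * x) (a r + P * x) :=
        ⟨rfl, by simp only; omega, by simp only; omega⟩
      have m3 : ((a r + 1 + P * x, l (2 * r + 2)) : ℤ × Fin n) ∈
          sg (l (2 * r + 2)) (a r + 1 + P * x) (u (r + 1) + P * x) :=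
        ⟨rfl, by simp only; omega, by simp only; omega⟩
      have m4 : ((u (r + 1) + P * x, l (2 * (r + 1))) : ℤ × Fin n) ∈
          sg (l (2 * r + 2)) (a r + 1 + P * x) (u (r + 1) + P * x) :=
        ⟨rfl, by simp only; omega, by simp only; omega⟩
      have hset : cen (r + 1) x = (cen r x ∪
          sg (l (2 * r + 1)) (v r + P * x) (a r + P * x)) ∪
          sg (l (2 * r + 2)) (a r + 1 + P * x) (u (r + 1) + P * x) := by
        ext g
        constructor
        · rintro (h1 | ⟨i, hi, h1⟩)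
          · exact Or.inl (Or.inl (Or.inl h1))
          · rcases Nat.lt_succ_iff_lt_or_eq.1 hi with hi' | hi'
            · exact Or.inl (Or.inl (Or.inr ⟨i, hi', h1⟩))
            · subst hi'
              rcases h1 with h1 | h1
              · exact Or.inl (Or.inr h1)
              · exact Or.inr h1
        · rintro ((h1 | h1) | h1)
          · rcases h1 with h1 | ⟨i, hi, h1⟩
            · exact Or.inl h1
            · exact Or.inr ⟨i, by omega, h1⟩
          · exact Or.inr ⟨r, by omega, Or.inl h1⟩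
          · exact Or.inr ⟨r, by omega, Or.inr h1⟩
      rw [hset]
      have k1 := ih1.union (conn_sg T _ _ _ _ m1) ih2 m1 (zadj _ _ _ _ x (huv r))
      have k2 := k1.union (conn_sg T _ _ _ _ m3) (Or.inr m2) m3 (zadj _ _ _ _ x (c1 r))
      exact ⟨k2, Or.inr m4⟩
  -- the position of an element
  let φ : ℤ × Option (Fin q) → Set (ℤ × Fin n) := fun p => match p.2 with
    | none => cen q p.1
    | some i => leaf p.1 i
  have hfloor : ∀ (x : ℤ) (o : Option (Fin q)) (g : ℤ × Fin n), g ∈ φ (x, o) →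
      (g.2 = l 0 ∧ 0 + P * x ≤ g.1 ∧ g.1 ≤ 0 + P * x + P - 1) ∨
      (∃ i, i < q ∧ g.2 = l (2 * i + 1) ∧ v i + P * x ≤ g.1 ∧ g.1 ≤ v i + P * x + P - 1) ∨
      (∃ i, i < q ∧ g.2 = l (2 * i + 2) ∧ (u (i + 1) - P + 1) + P * x ≤ g.1 ∧
        g.1 ≤ (u (i + 1) - P + 1) + P * x + P - 1) := by
    intro x o g hg
    rcases o with _ | i
    · have hg : g ∈ cen q x := hg
      rcases hg with ⟨g1, g2, g3⟩ | ⟨i, hi, ⟨g1, g2, g3⟩ | ⟨g1, g2, g3⟩⟩
      · exact Or.inl ⟨g1, by omega, by omega⟩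
      · have t1 := v1 i; have t2 := v2 i; have t3 := a1 i; have t4 := a2 i
        exact Or.inr (Or.inl ⟨i, hi, g1, by omega, by omega⟩)
      · have t3 := a1 i; have t4 := a2 i
        have t6 := v1 (i + 1); have t7 := v2 (i + 1); have t8 := u1 (i + 1)
        have t9 := u2 (i + 1); have t0 := τs i
        exact Or.inr (Or.inr ⟨i, hi, g1, by omega, by omega⟩)
    · have hi := i.2
      have hg : g ∈ leaf x i := hg
      rcases hg with ⟨g1, g2, g3⟩ | ⟨g1, g2, g3⟩
      · have t3 := a1 i; have t4 := a2 i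
        have t6 := v1 (i + 1); have t7 := v2 (i + 1); have t8 := u1 (i + 1)
        have t9 := u2 (i + 1); have t0 := τs i
        exact Or.inr (Or.inr ⟨i, hi, g1, by omega, by omega⟩)
      · have t1 := v1 i; have t2 := v2 i; have t3 := a1 i; have t4 := a2 i
        exact Or.inr (Or.inl ⟨i, hi, g1, by omega, by omega⟩)
  have hPpos : 0 < P := by omega
  have hxx : ∀ (x x' : ℤ) (o o' : Option (Fin q)) (g : ℤ × Fin n), g ∈ φ (x, o) →
      g ∈ φ (x', o') → x = x' := by
    intro x x' o o' g hg hg'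
    rcases hfloor x o g hg with ⟨g1, g2, g3⟩ | ⟨i, hi, g1, g2, g3⟩ | ⟨i, hi, g1, g2, g3⟩
    · rcases hfloor x' o' g hg' with ⟨k1, k2, k3⟩ | ⟨i', hi', k1, k2, k3⟩ | ⟨i', hi', k1, k2, k3⟩
      · exact uniq P _ _ _ _ hPpos g2 g3 k2 k3
      · have := linj _ _ (by omega) (by omega) (g1.symm.trans k1); omega
      · have := linj _ _ (by omega) (by omega) (g1.symm.trans k1); omega
    · rcases hfloor x' o' g hg' with ⟨k1, k2, k3⟩ | ⟨i', hi', k1, k2, k3⟩ | ⟨i', hi', k1, k2, k3⟩
      · have := linj _ _ (by omega) (by omega) (g1.symm.trans k1); omega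
      · have h7 := linj _ _ (by omega) (by omega) (g1.symm.trans k1)
        have h8 : i = i' := by omega
        subst h8
        exact uniq P _ _ _ _ hPpos g2 g3 k2 k3
      · have := linj _ _ (by omega) (by omega) (g1.symm.trans k1); omega
    · rcases hfloor x' o' g hg' with ⟨k1, k2, k3⟩ | ⟨i', hi', k1, k2, k3⟩ | ⟨i', hi', k1, k2, k3⟩
      · have := linj _ _ (by omega) (by omega) (g1.symm.trans k1); omega
      · have := linj _ _ (by omega) (by omega) (g1.symm.trans k1); omega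
      · have h7 := linj _ _ (by omega) (by omega) (g1.symm.trans k1)
        have h8 : i = i' := by omega
        subst h8
        exact uniq P _ _ _ _ hPpos g2 g3 k2 k3
  have hcl : ∀ (x : ℤ) (i : Fin q) (g : ℤ × Fin n), g ∈ cen q x → g ∉ leaf x i := by
    intro x i g hg hg'
    have hi := i.2
    rcases hg with ⟨g1, g2, g3⟩ | ⟨i', hi', ⟨g1, g2, g3⟩ | ⟨g1, g2, g3⟩⟩
    · rcases hg' with ⟨k1, k2, k3⟩ | ⟨k1, k2, k3⟩
      · have := linj _ _ (by omega) (by omega) (g1.symm.trans k1); omega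
      · have := linj _ _ (by omega) (by omega) (g1.symm.trans k1); omega
    · rcases hg' with ⟨k1, k2, k3⟩ | ⟨k1, k2, k3⟩
      · have := linj _ _ (by omega) (by omega) (g1.symm.trans k1); omega
      · have h7 := linj _ _ (by omega) (by omega) (g1.symm.trans k1)
        have h8 : i' = (i : ℕ) := by omega
        rw [h8] at g3
        omega
    · rcases hg' with ⟨k1, k2, k3⟩ | ⟨k1, k2, k3⟩
      · have h7 := linj _ _ (by omega) (by omega) (g1.symm.trans k1)
        have h8 : i' = (i : ℕ) := by omega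
        rw [h8] at g2
        omega
      · have := linj _ _ (by omega) (by omega) (g1.symm.trans k1); omega
  refine ⟨φ, ?_, ?_, ?_⟩
  · rintro ⟨x, _ | i⟩
    · exact (cen_conn x q).1
    · exact leaf_conn x i
  · rintro ⟨x, o⟩ ⟨x', o'⟩ g hg hg'
    have hx := hxx x x' o o' g hg hg'
    subst hx
    rcases o with _ | i
    · rcases o' with _ | i'
      · rfl
      · exact absurd hg' (hcl x i' g hg)
    · rcases o' with _ | i'
      · exact absurd hg (hcl x i g hg')
      · have hi := i.2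
        have hi' := i'.2
        have h8 : (i : ℕ) = i' := by
          rcases hg with ⟨g1, _, _⟩ | ⟨g1, _, _⟩
          · rcases hg' with ⟨k1, _, _⟩ | ⟨k1, _, _⟩
            · have := linj _ _ (by omega) (by omega) (g1.symm.trans k1); omega
            · have := linj _ _ (by omega) (by omega) (g1.symm.trans k1); omega
          · rcases hg' with ⟨k1, _, _⟩ | ⟨k1, _, _⟩
            · have := linj _ _ (by omega) (by omega) (g1.symm.trans k1); omega
            · have := linj _ _ (by omega) (by omega) (g1.symm.trans k1); omega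
        rw [Fin.ext h8]
  · have up : ∀ (x : ℤ) (o : Option (Fin q)), ∃ p ∈ φ (x, o), ∃ p' ∈ φ (x + 1, o),
        G.Adj p p' := by
      rintro x (_ | i)
      · show ∃ p ∈ cen q x, ∃ p' ∈ cen q (x + 1), G.Adj p p'
        refine ⟨(P * x + P - 1, l 0), Or.inl ⟨rfl, by simp only; omega, by simp only; omega⟩,
          (P * x + P - 1 + 1, l 0), Or.inl ⟨rfl, ?_, ?_⟩, T.step _ _⟩
        · simp only
          rw [mul_add, mul_one]; omega
        · simp only
          rw [mul_add, mul_one]; omega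
      · show ∃ p ∈ leaf x i, ∃ p' ∈ leaf (x + 1) i, G.Adj p p'
        have t1 := v1 i; have t2 := v2 i; have t3 := a1 i; have t4 := a2 i
        have t6 := v1 (i + 1); have t7 := v2 (i + 1); have t8 := u1 (i + 1)
        have t9 := u2 (i + 1); have t0 := τs i
        obtain ⟨p, p', h3, h4, h5, h6, h7⟩ := l_edge T _ _ (l3 (2 * i + 1))
          (u (i + 1) + P * x + 1)
        rw [← hW] at h5
        refine ⟨(p, l (2 * i + 1)), Or.inr ⟨rfl, by simp only; omega, by simp only; omega⟩,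
          (p', l (2 * i + 1 + 1)), Or.inl ⟨rfl, ?_, ?_⟩, h3⟩
        · simp only
          rw [mul_add, mul_one]; omega
        · simp only
          rw [mul_add, mul_one]; omega
    have sp : ∀ (x : ℤ) (i : Fin q), ∃ p ∈ φ (x, none), ∃ p' ∈ φ (x, some i),
        G.Adj p p' := by
      intro x i
      show ∃ p ∈ cen q x, ∃ p' ∈ leaf x i, G.Adj p p'
      have t1 := v1 i; have t2 := v2 i; have t3 := a1 i; have t4 := a2 i
      exact ⟨(a i + P * x, l (2 * i + 1)), Or.inr ⟨i, i.2, Or.inl ⟨rfl, by simp only; omega,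
        by simp only; omega⟩⟩, (a i + P * x + 1, l (2 * i + 1)),
        Or.inr ⟨rfl, by simp only; omega, by simp only; omega⟩, T.step _ _⟩
    rintro ⟨x, o⟩ ⟨x', o'⟩ hadj
    unfold StarZ at hadj
    rw [SimpleGraph.fromRel_adj] at hadj
    obtain ⟨hne, (⟨h1, h2⟩ | ⟨h1, h2⟩) | (⟨h1, h2⟩ | ⟨h1, h2⟩)⟩ := hadj
    · simp only at h1 h2
      subst h1 h2
      exact up x o
    · simp only at h1 h2
      subst h1 h2
      rcases o' with _ | i
      · exact absurd rfl hne
      · exact sp x i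
    · simp only at h1 h2
      subst h1 h2
      obtain ⟨p, hp, p', hp', hpp⟩ := up x' o'
      exact ⟨p', hp', p, hp, hpp.symm⟩
    · simp only at h1 h2
      subst h1 h2
      rcases o with _ | i
      · exact absurd rfl hne
      · obtain ⟨p, hp, p', hp', hpp⟩ := sp x' i
        exact ⟨p', hp', p, hp, hpp.symm⟩

end Pool.Agent.Helper94.NW
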